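import Mathlib
import Pool.Agent.Y520.AS.Stm
import Pool.Agent.H947R3.Int

/-! # Project AS: the drift term in the energy identity (helper182) -/

set_option autoImplicit false

open MeasureTheory Set Filter Topology Laplacian InnerProductSpace

namespace Pool.Agent.Y182.AS

open Pool.Agent.H947R3 Pool.Agent.Y520.AR Pool.Agent.Y520.AS

theorem dv_le {n : ℕ} {Ω : Set (E n)} {c : E n → E n} {B : ℝ} (hc : Drift Ω c B) {x : E n}
    (hx : x ∈ Ω) : dv c x ≤ n * B := by
  unfold dv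
  have h1 : ∀ i ∈ (Finset.univ : Finset (Fin n)), fderiv ℝ c x (bv i) i ≤ B := by
    intro i _
    have h2 : |fderiv ℝ c x (bv i) i| ≤ ‖fderiv ℝ c x (bv i)‖ := by
      rw [← Real.norm_eq_abs]
      exact PiLp.norm_apply_le _ i
    have h3 : ‖fderiv ℝ c x (bv i)‖ ≤ ‖fderiv ℝ c x‖ * ‖(bv i : E n)‖ :=
      ContinuousLinearMap.le_opNorm _ _
    have h4 : ‖(bv i : E n)‖ = 1 := by simp [bv]
    rw [h4, mul_one] at h3
    exact (le_abs_self _).trans (h2.trans (h3.trans (hc.bd' x hx)))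
  refine (Finset.sum_le_sum h1).trans ?_
  simp

theorem t_DRE (hD : S_DIVG) : S_DRE := by
  intro n Ω c B ε u Θ Ψ hc h hε hz hk hkc hpos
  have hΘ : ContDiffOn ℝ 1 Θ (Ioo 0 1) := by
    have h1 : ∀ t ∈ Ioo (0 : ℝ) 1, deriv Θ t = Ψ t := fun t ht => (hk t ht).deriv
    rw [show (1 : WithTop ℕ∞) = 0 + 1 from rfl, contDiffOn_succ_iff_deriv_of_isOpen isOpen_Ioo]
    refine ⟨fun t ht => (hk t ht).differentiableAt.differentiableWithinAt, by simp, ?_⟩
    exact contDiffOn_zero.2 (hkc.congr h1)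
  obtain ⟨i1, i2, heq⟩ := hD n Ω c (Pool.Agent.H947R3.cmp Ω Θ u) h.opn hc.c1 (h.contDiff_cmp hε hz hΘ)
    (h.hasCompactSupport_cmp hε hz) (h.tsupport_cmp_subset hε hz)
  have e1 : (fun x => fderiv ℝ (Pool.Agent.H947R3.cmp Ω Θ u) x (c x)) =
      Ω.indicator (fun x => fderiv ℝ u x (c x) * Ψ (u x)) := by
    funext x
    by_cases hx : x ∈ Ω
    · rw [indicator_of_mem hx, (cmp_eventuallyEq h.opn hx).fderiv_eq]
      have h1 : DifferentiableAt ℝ u x :=
        (h.c2.contDiffAt (h.opn.mem_nhds hx)).differentiableAt (by norm_num)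
      have h2 := (hk _ ⟨h.pos x hx, h.lt x hx⟩).comp_hasFDerivAt x h1.hasFDerivAt
      have h3 : HasFDerivAt (fun y => Θ (u y)) (Ψ (u x) • fderiv ℝ u x) x := h2
      rw [h3.fderiv]
      simp [mul_comm]
    · rw [indicator_of_notMem hx, fderiv_of_notMem_tsupport _
        (fun hh => hx (h.tsupport_cmp_subset hε hz hh))]
      simp
  have e2 : (fun x => dv c x * Pool.Agent.H947R3.cmp Ω Θ u x) = Ω.indicator (fun x => dv c x * Θ (u x)) := by
    funext x
    by_cases hx : x ∈ Ω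
    · rw [indicator_of_mem hx]; simp [Pool.Agent.H947R3.cmp, hx]
    · rw [indicator_of_notMem hx]; simp [Pool.Agent.H947R3.cmp, hx]
  rw [e1] at i1 heq
  rw [e2] at i2 heq
  rw [integrable_indicator_iff h.opn.measurableSet] at i1 i2
  rw [integral_indicator h.opn.measurableSet, integral_indicator h.opn.measurableSet] at heq
  have I0 : IntegrableOn (fun x => Θ (u x)) Ω := by
    have := h.integrableOn_comp_mul (κ := Θ) hε hz hΘ.continuousOn (G := fun _ => 1)
      continuousOn_const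
    simpa using this
  refine ⟨I0, i1, ?_⟩
  rw [heq, neg_neg, ← integral_const_mul]
  refine setIntegral_mono_on i2 (I0.const_mul _) h.opn.measurableSet fun x hx => ?_
  exact mul_le_mul_of_nonneg_right (dv_le hc hx) (hpos _ ⟨h.pos x hx, h.lt x hx⟩)

end Pool.Agent.Y182.AS
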